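import Mathlib

namespace Pool.Agent.Results.MP_096971_nt.Full

/-- The base-`b` elated function: leading digit times the sum of the squares of the digits. -/
def E (b a : ℕ) : ℕ := (Nat.digits b a).getLastD 0 * ((Nat.digits b a).map fun d => d ^ 2).sum

/-- `S` is a cycle of the base-`b` elated function. -/
def IsCycle (b : ℕ) (S : Finset ℕ) : Prop :=
  ∃ (k : ℕ) (x : ℕ → ℕ), 1 ≤ k ∧ (∀ i < k, ∀ j < k, x i = x j → i = j) ∧ (∀ j < k, 0 < x j) ∧
    (∀ j, j + 1 < k → E b (x j) = x (j + 1)) ∧ E b (x (k - 1)) = x 0 ∧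
    S = (Finset.range k).image x

def u (r : ℤ) : ℤ := 26 + 170 * r + 7072 * r ^ 2
def v (r : ℤ) : ℤ := 31 + 8704 * r ^ 2
def w (r : ℤ) : ℤ := 10 + 26 * r + 2720 * r ^ 2
def n (r : ℤ) : ℤ := u r ^ 2 + v r ^ 2

theorem fixed (b y z : ℕ) (hb : 3 ≤ b) (hy : y < b) (hz : z < b)
    (h : 2 * (4 + y ^ 2 + z ^ 2) = 2 * b ^ 2 + y * b + z) :
    E b (2 * b ^ 2 + y * b + z) = 2 * b ^ 2 + y * b + z := by
  have : Nat.digits b (2 * b ^ 2 + y * b + z) = [z, y, 2] := by
    rw [← Nat.digits_ofDigits b (by omega) [z, y, 2] (by simp; omega) (by simp)]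
    congr 1; simp [Nat.ofDigits]; ring
  rw [E, this, ← h]; simp; ring

theorem rat (r : ℤ) (h : 0 ≤ r) : 0 < v r ∧ 4 * v r ≤ 5 * u r ∧ 20 * u r ≤ 17 * v r := by
  refine ⟨by unfold v; positivity, by unfold u v; nlinarith, ?_⟩
  unfold u v
  rcases h.eq_or_lt with rfl | h
  · norm_num
  · nlinarith

theorem ang (p q P Q : ℤ) (a1 : 0 < q) (a2 : 4 * q ≤ 5 * p) (a3 : 20 * p ≤ 17 * q)
    (b1 : 0 < Q) (b2 : 4 * Q ≤ 5 * P) (b3 : 20 * P ≤ 17 * Q) :
    P * (p ^ 2 - q ^ 2) + 2 * p * q * Q ≤ 2 * p * q * P - (p ^ 2 - q ^ 2) * Q ∧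
    3 * (2 * p * q * P - (p ^ 2 - q ^ 2) * Q) ≤ 5 * (P * (p ^ 2 - q ^ 2) + 2 * p * q * Q) ∧
    0 < 2 * p * q * P - (p ^ 2 - q ^ 2) * Q := by
  have q1 : 0 ≤ 36 * q ^ 2 - 100 * (q ^ 2 - p ^ 2) := by nlinarith
  have q2 : 0 ≤ 400 * (q ^ 2 - p ^ 2) - 111 * q ^ 2 := by nlinarith
  have q3 : 0 ≤ 5 * (p * q) - 4 * q ^ 2 := by nlinarith
  have q4 : 0 ≤ 17 * q ^ 2 - 20 * (p * q) := by nlinarith
  have P0 : 0 ≤ P := by linarith
  have c1 := mul_nonneg q1 P0; have c2 := mul_nonneg q2 P0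
  have c3 := mul_nonneg q3 P0; have c4 := mul_nonneg q4 P0
  have d1 := mul_nonneg q1 b1.le; have d2 := mul_nonneg q2 b1.le
  have d3 := mul_nonneg q3 b1.le; have d4 := mul_nonneg q4 b1.le
  have e1 := mul_nonneg (sq_nonneg q) (sub_nonneg.2 b2)
  have e2 := mul_nonneg (sq_nonneg q) (sub_nonneg.2 b3)
  have e3 : 0 < q ^ 2 * Q := by positivity
  exact ⟨by linarith, by linarith, by linarith⟩

theorem rng (U V b : ℤ) (w0 : 2756 ≤ b) (g1 : U ≤ V) (g2 : 3 * V ≤ 5 * U) (g3 : 0 < V)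
    (h : U ^ 2 + V ^ 2 = 17 * b ^ 2 - 63) : (0 < U ∧ U < 3 * b) ∧ 0 < V ∧ V < 4 * b - 1 :=
  ⟨⟨by linarith, by nlinarith⟩, g3, by nlinarith⟩

theorem rep (r s : ℤ) (hr : 0 ≤ r) (hs : 1 ≤ s) (h : 4 * n r ∣ s - r) :
    ∃ y z : ℕ, (y : ℤ) < w s ∧ (z : ℤ) < w s ∧
      2 * (4 + y ^ 2 + z ^ 2) = 2 * w s ^ 2 + y * w s + z ∧
      2 * u r * v r * n s = n r * ((4 * y - w s) * v s + (4 * z - 1) * u s) := by
  obtain ⟨c, hc⟩ := h
  obtain ⟨a1, a2, a3⟩ := rat r hr
  obtain ⟨b1, b2, b3⟩ := rat s (by omega)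
  have e0 : u s ^ 2 + v s ^ 2 = 17 * w s ^ 2 - 63 := by unfold u v w; ring
  have w0 : 2756 ≤ w s := by unfold w; nlinarith
  have e1 : u s = u r + n r * (4 * (c * (170 + 7072 * (s + r)))) := by
    unfold u; linear_combination (170 + 7072 * (s + r)) * hc
  have e2 : v s = v r + n r * (4 * (c * (8704 * (s + r)))) := by
    unfold v; linear_combination (8704 * (s + r)) * hc
  have e3 : w s = w r + 4 * (n r * c * (26 + 2720 * (s + r))) := by
    unfold w; linear_combination (26 + 2720 * (s + r)) * hc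
  have e4 : u r + w r = 4 * (9 + 49 * r + 2448 * r ^ 2) := by unfold u w; ring
  have e5 : v r + 1 = 4 * (8 + 2176 * r ^ 2) := by unfold v; ring
  have e6 : n s = u s ^ 2 + v s ^ 2 := rfl
  have e7 : n r = u r ^ 2 + v r ^ 2 := rfl
  generalize c * (170 + 7072 * (s + r)) = α at *
  generalize c * (8704 * (s + r)) = β at *
  generalize n r * c * (26 + 2720 * (s + r)) = κ at *
  generalize 9 + 49 * r + 2448 * r ^ 2 = k1 at *
  generalize 8 + 2176 * r ^ 2 = k2 at *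
  generalize u r = p at *; generalize v r = q at *; generalize u s = P at *
  generalize v s = Q at *; generalize w s = b at *; generalize n r = N at *
  generalize n s = N' at *
  obtain ⟨U, hU⟩ : ∃ U, U = p + 4 * (α * (p ^ 2 - q ^ 2) + β * (2 * p * q)) := ⟨_, rfl⟩
  obtain ⟨V, hV⟩ : ∃ V, V = q + 4 * (α * (2 * p * q) - β * (p ^ 2 - q ^ 2)) := ⟨_, rfl⟩
  have f1 : N * U = P * (p ^ 2 - q ^ 2) + 2 * p * q * Q := by rw [hU, e1, e2, e7]; ring
  have f2 : N * V = 2 * p * q * P - (p ^ 2 - q ^ 2) * Q := by rw [hV, e1, e2, e7]; ring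
  have f3 : U ^ 2 + V ^ 2 = P ^ 2 + Q ^ 2 := by rw [hU, hV, e1, e2, e7]; ring
  have N0 : 0 < N := by rw [e7]; positivity
  have f4 : 2 * p * q * N' = N * (U * Q + V * P) := by
    rw [e6]; linear_combination (-Q) * f1 - P * f2
  obtain ⟨g1, g2, g3⟩ := ang p q P Q a1 a2 a3 b1 b2 b3
  rw [← f1, ← f2] at g1 g2; rw [← f2] at g3
  obtain ⟨g4, g5⟩ := rng U V b w0 (le_of_mul_le_mul_left g1 N0)
    (le_of_mul_le_mul_left (a := N) (by linarith) N0) ((mul_pos_iff_of_pos_left N0).1 g3) (f3.trans e0)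
  obtain ⟨y, hy⟩ : ∃ y, U + b = 4 * y :=
    ⟨(α * (p ^ 2 - q ^ 2) + β * (2 * p * q)) + κ + k1, by rw [hU, e3]; linear_combination e4⟩
  obtain ⟨z, hz⟩ : ∃ z, V + 1 = 4 * z :=
    ⟨(α * (2 * p * q) - β * (p ^ 2 - q ^ 2)) + k2, by rw [hV]; linear_combination e5⟩
  obtain ⟨y, rfl⟩ := Int.eq_ofNat_of_zero_le (show 0 ≤ y by omega)
  obtain ⟨z, rfl⟩ := Int.eq_ofNat_of_zero_le (show 0 ≤ z by omega)
  refine ⟨y, z, by omega, by omega, ?_, by rw [← hy, ← hz, f4]; ring⟩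
  rw [show U = 4 * y - b by omega, show V = 4 * z - 1 by omega, e0] at f3
  refine mul_left_cancel₀ (show (8 : ℤ) ≠ 0 by norm_num) ?_
  linear_combination f3

theorem seq (M : ℕ) : ∃ (s : ℤ) (R : Finset ℤ), 1 ≤ s ∧ R.card = M ∧
    ∀ r ∈ R, 0 ≤ r ∧ r < s ∧ 4 * n r ∣ s - r := by
  induction M with
  | zero => exact ⟨1, ∅, le_rfl, rfl, by simp⟩
  | succ M ih =>
    obtain ⟨s, R, h1, h2, h3⟩ := ih
    have p : 0 < ∏ r ∈ insert s R, n r := Finset.prod_pos fun r hr => by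
      have : 0 < v r := by unfold v; positivity
      unfold n; positivity
    refine ⟨s + 4 * ∏ r ∈ insert s R, n r, insert s R, by linarith,
      by rw [Finset.card_insert_of_notMem fun h => (h3 s h).2.1.false, h2], fun r hr => ?_⟩
    have d := mul_dvd_mul_left 4 (Finset.dvd_prod_of_mem n hr)
    rcases Finset.mem_insert.1 hr with rfl | h
    · exact ⟨by linarith, by linarith, by simpa using d⟩
    · obtain ⟨a, b, c⟩ := h3 r h
      exact ⟨a, by linarith, by rw [add_sub_right_comm]; exact dvd_add c d⟩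

theorem inj (r t : ℤ) (hr : 0 ≤ r) (ht : 0 ≤ t) (h : u r * v r * n t = u t * v t * n r) :
    r = t := by
  obtain ⟨a1, a2, a3⟩ := rat r hr
  obtain ⟨b1, b2, b3⟩ := rat t ht
  have e : (u r * v t - u t * v r) * (v r * v t - u r * u t) = 0 := by
    unfold n at h; linear_combination h
  have e := (mul_eq_zero.1 e).resolve_right (by nlinarith)
  have e : (r - t) * (5270 - 7072 * (r + t) - 1479680 * (r * t)) = 0 := by
    unfold u v at e; linear_combination e
  rcases mul_eq_zero.1 e with e | e <;> omega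

theorem result (M : ℕ) : ∃ b, 2 ≤ b ∧ (M : ℕ∞) < {S | IsCycle b S}.encard := by
  obtain ⟨s, R, h1, h2, h3⟩ := seq (M + 1)
  have w0 : 2756 ≤ w s := by unfold w; nlinarith
  obtain ⟨b, hb⟩ := Int.eq_ofNat_of_zero_le (show 0 ≤ w s by linarith)
  have := fun r : R => rep r s (h3 r r.2).1 h1 (h3 r r.2).2.2
  rw [hb] at this w0
  choose y z k1 k2 k3 k4 using this
  refine ⟨b, by omega, ?_⟩
  let f : R → Finset ℕ := fun r => {2 * b ^ 2 + y r * b + z r}
  have fi : Function.Injective f := by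
    intro r t e
    have e := Finset.singleton_injective e
    have z1 : z r < b := by exact_mod_cast k2 r
    have z2 : z t < b := by exact_mod_cast k2 t
    have e1 : y r * b + z r = y t * b + z t := by omega
    have e2 : z r = z t := by
      have := congrArg (· % b) e1
      simpa [Nat.mod_eq_of_lt z1, Nat.mod_eq_of_lt z2] using this
    have e3 : y r = y t := Nat.eq_of_mul_eq_mul_right (show 0 < b by omega) (by omega)
    have a := k4 r; have c := k4 t
    rw [e2, e3] at a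
    have ns : 0 < n s := by
      have : 0 < v s := by unfold v; positivity
      unfold n; positivity
    refine Subtype.ext (inj r t (h3 r r.2).1 (h3 t t.2).1
      (mul_left_cancel₀ (show 2 * n s ≠ 0 by positivity) ?_))
    linear_combination n t * a - n r * c
  have hs : Set.range f ⊆ {S | IsCycle b S} := by
    rintro _ ⟨r, rfl⟩
    refine ⟨1, fun _ => 2 * b ^ 2 + y r * b + z r, le_rfl, by omega, fun _ _ => ?_, by omega,
      fixed b _ _ (by omega) (by exact_mod_cast k1 r) (by exact_mod_cast k2 r)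
        (by exact_mod_cast k3 r), by simp [f]⟩
    have : 0 < b := by omega
    positivity
  refine lt_of_lt_of_le ?_ (fi.encard_range.trans (Set.encard_le_encard hs))
  simp [h2]; exact_mod_cast Nat.lt_succ_self M

end Pool.Agent.Results.MP_096971_nt.Full
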